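import Pool.Agent.TH125.Gal.Pub2
import Pool.Agent.H281R3.HT.GDefs

/-!
# Varieties with absolutely irreducible transcendental cohomology of odd rank: definitions
-/

open CategoryTheory AlgebraicGeometry

universe u v w

namespace Pool.Agent.W5h89.Odd

section Alg

open Pool.Agent.H281R3.HT Pool.Agent.TH125.Gal

variable {K : Type*} [Field K]

/-- The action of all subgroups of finite index on the subspace `T` is absolutely irreducible: the
only stable subspaces are `0` and `T`, and the only linear operators on `T` which commute with it
are the scalars. The dimension of `T` is odd, or `T = 0`. -/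
structure OddAct {A : Type*} [Ring A] [Algebra K A] {Γ : Type*} [Group Γ]
    (ρ : Γ →* (A ≃ₐ[K] A)) (T : Submodule K A) : Prop where
  irreducible : IrredAct ρ T
  scalars : ∀ Δ : Subgroup Γ, Δ.FiniteIndex → ScalarCommutant T fun (g : Δ) a => ρ g a
  odd : T = ⊥ ∨ Odd (Module.finrank K T)

/-- The vectors `x` of the subspace `S` with `d x = 0` have a basis with `r` elements (every such
vector is in a unique way a linear combination of its elements), in which the form
`(-1) ^ j tr (x y)` has the discriminant `δ`. -/
def HasDet {A : Type*} [Ring A] [Algebra K A] (S : Submodule K A) (d : A) (tr : A →ₗ[K] K)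
    (j r : ℕ) (δ : ℚ) : Prop :=
  ∃ b : Fin r → A, (∀ i, b i ∈ S ∧ d * b i = 0) ∧
    (∀ x ∈ S, d * x = 0 → ∃! c : Fin r → K, x = ∑ i, c i • b i) ∧
    (Matrix.of fun i i' => (-1) ^ j * tr (b i * b i')).det = (δ : K)

end Alg

open Pool.Agent.H914 Pool.Agent.H914.VarClass Pool.Agent.H914.VarClass.Obj
  Pool.Agent.H914.WeilCohomology Pool.Agent.H281R3.HT Pool.Agent.TH125.Gal

variable {k : Type u} [Field k] {𝒱 : VarClass k} {ops : CycleOps 𝒱}

/-- `D` is a polarization of `X` (the hard Lefschetz theorem and the standard conjectures of
Lefschetz and of Hodge type hold for it), and the transcendental cohomology of `X` is in the middle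
degree, absolutely irreducible under all subgroups of finite index and of odd dimension, or zero. -/
structure OddIrreducible {W : WeilCohomology.{u, v} ops} {Γ : Type w} [Group Γ] (X : GVar W Γ)
    (D : X.X.Cycles) : Prop where
  polarization : IsPolarization W X.X D
  middle : transcendental W X.X ≤ W.gr X.X X.X.dim
  act : OddAct X.act (transcendental W X.X)

/-- The class of the cycle `z`. -/
noncomputable def cls (W : WeilCohomology.{u, v} ops) (X : 𝒱.Obj) (z : X.Cycles) : W.H X :=
  W.cl X z

/-- The space of the primitive classes of the middle degree of `P` (the classes `x` in this degree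
with `D · x = 0`) has a basis with `r` elements in which the form `(-1) ^ j tr (x · y)` has the
discriminant `δ`. -/
def HasDiscriminant (W : WeilCohomology.{u, v} ops) (P : Polarized 𝒱) (j r : ℕ) (δ : ℚ) : Prop :=
  HasDet (W.gr P.X P.X.dim) (cls W P.X P.D) (W.tr P.X) j r δ

/-- The polarized variety, with an action of `Γ` on the cohomology, is a member of the class `G` and
has the properties above. -/
inductive OddMember {W : WeilCohomology.{u, v} ops} {Γ : Type w} [Group Γ] (G : Set (GVar W Γ)) :
    Polarized 𝒱 → Prop
  | mk (V : GVar W Γ) (D : V.X.Cycles) : V ∈ G → OddIrreducible V D → OddMember G ⟨V.X, D⟩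

/-- The group `Γ` acts on the cohomology of the varieties `X a` and of their products like a Galois
group, the `X a` have the properties above, and the form `(-1) ^ (j a) tr (x · y)` on the primitive
classes of the middle degree of `X a` has rank `r a` and discriminant `δ a`. -/
def OddFamily (W : WeilCohomology.{u, v} ops) (Γ : Type w) [Group Γ] {ι : Type}
    (X : ι → Polarized 𝒱) (j r : ι → ℕ) (δ : ι → ℚ) : Prop :=
  ∃ (χ : Γ →* W.Kˣ) (G : Set (GVar W Γ)), GaloisClass χ G ∧ ∀ a, OddMember G (X a) ∧
    HasDiscriminant W (X a) (j a) (r a) (δ a)

/-- The standard conjectures of Hodge type and `D` for `P`. -/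
def HodgeAndD (W : WeilCohomology.{u, v} ops) (P : Polarized 𝒱) : Prop :=
  HodgeType W P.X P.D ∧ HomEqNum W P.X

end Pool.Agent.W5h89.Odd
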