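import Pool.Agent.W5h89.Odd.Main
import Pool.Agent.W5h89.Odd.Defs

/-!
# The comparison of the definitions
-/

open CategoryTheory AlgebraicGeometry

universe u v w

namespace Pool.Agent.W5h89.Odd

open Pool.Agent.H914 Pool.Agent.H914.VarClass Pool.Agent.H914.VarClass.Obj
  Pool.Agent.H914.WeilCohomology Pool.Agent.H281R3.HT Pool.Agent.W552 Pool.Agent.TH125.Gal
  Pool.Agent.W5h89.Disc

variable {k : Type u} [Field k] {𝒱 : VarClass k} {ops : CycleOps 𝒱}

theorem midPrimitive_iff {W : WeilCohomology.{u, v} ops} {P : Polarized 𝒱} {j : ℕ}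
    (hd : P.X.dim = 2 * j) {x : W.H P.X} :
    (x ∈ W.gr P.X P.X.dim ∧ cls W P.X P.D * x = 0) ↔ x ∈ primSub W P j := by
  unfold primSub
  rw [Submodule.mem_inf, LinearMap.mem_ker, hd, Nat.sub_self, zero_add, pow_one,
    LinearMap.mulLeft_apply]
  rfl

theorem toDisc {W : WeilCohomology.{u, v} ops} {P : Polarized 𝒱} {j r : ℕ} {δ : ℚ}
    (hd : P.X.dim = 2 * j) (h : HasDiscriminant W P j r δ) :
    HasDisc W P j r δ := by
  classical
  obtain ⟨b, hb1, hb2, h3⟩ := h
  set b' : Fin r → primSub W P j := fun a => ⟨b a, (midPrimitive_iff hd).1 (hb1 a)⟩ with hb'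
  have hc : ∀ c : Fin r → W.K, ((∑ a, c a • b' a : primSub W P j) : W.H P.X) =
      ∑ a, c a • b a := by
    intro c
    rw [Submodule.coe_sum]
    rfl
  have hli : LinearIndependent W.K b' := by
    rw [Fintype.linearIndependent_iff]
    intro c h0
    have h4 : ∑ a, c a • b a = 0 := by rw [← hc, h0]; rfl
    have h5 : ∑ a, (0 : Fin r → W.K) a • b a = 0 := by simp
    obtain ⟨e, -, he⟩ := hb2 0 (Submodule.zero_mem _) (mul_zero _)
    have h6 := (he c h4.symm).trans (he 0 h5.symm).symm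
    exact fun a => congrFun h6 a
  have hsp : ⊤ ≤ Submodule.span W.K (Set.range b') := by
    rintro x -
    obtain ⟨c, hc', -⟩ := hb2 x.1 ((midPrimitive_iff hd).2 x.2).1 ((midPrimitive_iff hd).2 x.2).2
    have h4 : x = ∑ a, c a • b' a := by
      apply Subtype.ext
      rw [hc]
      exact hc'
    rw [h4]
    exact Submodule.sum_mem _ fun a _ => Submodule.smul_mem _ _ (Submodule.subset_span ⟨a, rfl⟩)
  refine ⟨Module.Basis.mk hli hsp, ?_⟩
  rw [← h3]
  congr 1
  ext a c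
  simp only [Module.Basis.mk_apply, Matrix.of_apply, hb', lform]
  rw [hd, Nat.sub_self, pow_zero]
  rfl

theorem toMem {W : WeilCohomology.{u, v} ops} {Γ : Type w} [Group Γ] {P : Polarized 𝒱}
    {ρ : Γ →* (W.H P.X ≃ₐ[W.K] W.H P.X)} {j r : ℕ} {δ : ℚ} (hd : P.X.dim = 2 * j)
    (h : OddIrreducible (⟨P.X, ρ⟩ : GVar W Γ) P.D)
    (h' : HasDiscriminant W P j r δ) : Mem W P ρ j r δ where
  pol := h.polarization
  middle := h.middle
  irred := h.act.irreducible
  scal := h.act.scalars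
  odd := h.act.odd
  disc := toDisc hd h'

theorem OddMember.exists_act {W : WeilCohomology.{u, v} ops} {Γ : Type w} [Group Γ]
    {G : Set (GVar W Γ)} {P : Polarized 𝒱} (h : OddMember G P) :
    ∃ ρ : Γ →* (W.H P.X ≃ₐ[W.K] W.H P.X), (⟨P.X, ρ⟩ : GVar W Γ) ∈ G ∧
      OddIrreducible (⟨P.X, ρ⟩ : GVar W Γ) P.D := by
  obtain ⟨V, D, hV, h⟩ := h
  exact ⟨V.act, hV, h⟩

/-- **Products of two varieties whose transcendental cohomology is absolutely irreducible and of
odd rank.** -/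
theorem family_main (p : ℕ) (W : ℕ → WeilCohomology.{u, v} ops)
    (hW : ∀ (l : ℕ) [Fact l.Prime], l ≠ p → Nonempty ((W l).K →+* ℚ_[l])) {Γ : Type w} [Group Γ]
    {ι : Type} {X : ι → Polarized 𝒱} {j r : ι → ℕ} {δ : ι → ℚ}
    (hj : ∀ a, (X a).X.dim = 2 * j a) (hδ : ∀ a, 0 < δ a)
    (h : ∀ l, l.Prime → l ≠ p → OddFamily (W l) Γ X j r δ) {l : ℕ} (hl : l.Prime) (hlp : l ≠ p)
    (a b : ι) : HodgeAndD (W l) ((X a).prod ops (X b)) := by
  refine pair_main p W hW (hj a) (hj b) (hδ a) (hδ b) (Γ := Γ) (r := r a) (r' := r b)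
    (fun l' hl' hl'p => ?_) hl hlp
  obtain ⟨χ, G, hG, hm⟩ := h l' hl' hl'p
  obtain ⟨ρ, hρ, hρ'⟩ := (hm a).1.exists_act
  obtain ⟨τ, hτ, hτ'⟩ := (hm b).1.exists_act
  exact ⟨χ, G, ρ, τ, hG, hρ, hτ, toMem (hj a) hρ' (hm a).2, toMem (hj b) hτ' (hm b).2⟩

/-- The classes on the products of several members which are generated by the classes on the factors
and on the products of two factors. -/
theorem family_matching (p : ℕ) (W : ℕ → WeilCohomology.{u, v} ops)
    (hW : ∀ (l : ℕ) [Fact l.Prime], l ≠ p → Nonempty ((W l).K →+* ℚ_[l])) {Γ : Type w} [Group Γ]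
    {ι : Type} {X : ι → Polarized 𝒱} {j r : ι → ℕ} {δ : ι → ℚ}
    (hj : ∀ a, (X a).X.dim = 2 * j a) (hδ : ∀ a, 0 < δ a)
    (h : ∀ l, l.Prime → l ≠ p → OddFamily (W l) Γ X j r δ) {l : ℕ} (hl : l.Prime) (hlp : l ≠ p)
    (n : ℕ) (a : Fin (n + 1) → ι) :
    HodgeTypeOn (W l) (nest ops n fun i => X (a i)).X (nest ops n fun i => X (a i)).D
        (matchingSpan (W l) fun i => X (a i)) ∧
      HomEqNumOn (W l) (nest ops n fun i => X (a i)).X (matchingSpan (W l) fun i => X (a i)) := by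
  obtain ⟨χ, G, hG, hm⟩ := h l hl hlp
  have hp : ∀ i, IsPolarization (W l) (X (a i)).X (X (a i)).D := by
    intro i
    obtain ⟨ρ, hρ, hρ'⟩ := (hm (a i)).1.exists_act
    exact hρ'.polarization
  exact hodge_matching (P := fun i => X (a i)) (fun i => (hp i).div)
    (fun i => (hp i).hard) (fun i => (hp i).lefschetz) (fun i => (hp i).hodge)
    fun i i' => (family_main p W hW hj hδ h hl hlp (a i) (a i')).1

end Pool.Agent.W5h89.Odd
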