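import Mathlib

/-!
# Discriminants
-/

open Matrix Module

set_option linter.unusedSectionVars false

namespace Pool.Agent.W5h89.Odd

variable {K : Type*} [Field K] {V : Type*} [AddCommGroup V] [Module K V]

/-- The Gram matrix. -/
noncomputable def gm (β : V →ₗ[K] V →ₗ[K] K) {n : ℕ} (v : Fin n → V) : Matrix (Fin n) (Fin n) K :=
  Matrix.of fun i j => β (v i) (v j)

theorem gram_change {ι κ : Type*} [Fintype ι] [DecidableEq ι] [Fintype κ] [DecidableEq κ]
    (b : Basis ι K V) (b' : Basis κ K V) (e : ι ≃ κ) (β : V →ₗ[K] V →ₗ[K] K) :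
    ∃ x : K, x ≠ 0 ∧ (LinearMap.toMatrix₂ b b β).det = (LinearMap.toMatrix₂ b' b' β).det * x ^ 2 := by
  set b'' := b.reindex e with hb''
  have hd1 : (LinearMap.toMatrix₂ b'' b'' β).det = (LinearMap.toMatrix₂ b b β).det := by
    rw [← Matrix.det_submatrix_equiv_self e]
    congr 1
    ext i j
    rw [Matrix.submatrix_apply, LinearMap.toMatrix₂_apply, LinearMap.toMatrix₂_apply, hb'',
      Basis.reindex_apply, Basis.reindex_apply, Equiv.symm_apply_apply, Equiv.symm_apply_apply]
  have hch := LinearMap.toMatrix₂_mul_basis_toMatrix b' b' b'' b'' β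
  set Q := b'.toMatrix b'' with hQ
  have hQ0 : Q.det ≠ 0 := by
    have h3 : Q * b''.toMatrix b' = 1 := b'.toMatrix_mul_toMatrix_flip b''
    intro h0
    have h4 := congrArg Matrix.det h3
    rw [Matrix.det_mul, h0, zero_mul, Matrix.det_one] at h4
    exact zero_ne_one h4
  refine ⟨Q.det, hQ0, ?_⟩
  rw [← hd1, ← hch, Matrix.det_mul, Matrix.det_mul, Matrix.det_transpose]
  ring

theorem toMatrix₂_eq_gm {n : ℕ} (b : Basis (Fin n) K V) (β : V →ₗ[K] V →ₗ[K] K) :
    LinearMap.toMatrix₂ b b β = gm β b := by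
  ext i j
  rw [LinearMap.toMatrix₂_apply]
  rfl

/-- **The discriminant and an orthogonal complement.** -/
theorem orth_disc [Module.Finite K V] {β : V →ₗ[K] V →ₗ[K] K} (hsy : ∀ x y, β x y = β y x)
    {t : ℕ} {v : Fin t → V} {w : Fin t → K} (ho : ∀ a b, a ≠ b → β (v a) (v b) = 0)
    (hw : ∀ a, β (v a) (v a) = w a) (hw0 : ∀ a, w a ≠ 0) {T : Submodule K V}
    (hT : ∀ x, x ∈ T ↔ ∀ a, β (v a) x = 0) {r n : ℕ} (b : Basis (Fin r) K V)
    (bT : Basis (Fin n) K T) :
    r = t + n ∧ ∃ x : K, x ≠ 0 ∧ (gm β b).det =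
      (∏ a, w a) * (gm β fun i => (bT i : V)).det * x ^ 2 := by
  have hsum : ∀ (l : Fin t → K) (a : Fin t), β (v a) (∑ b, l b • v b) = l a * w a := by
    intro l a
    rw [map_sum, Finset.sum_eq_single a]
    · rw [map_smul, hw, smul_eq_mul]
    · intro b _ hb
      rw [map_smul, ho a b hb.symm, smul_zero]
    · intro h0
      exact absurd (Finset.mem_univ a) h0
  have hli : LinearIndependent K v := by
    rw [Fintype.linearIndependent_iff]
    intro l hl a
    have h1 := hsum l a
    rw [hl, map_zero] at h1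
    exact (mul_eq_zero.1 h1.symm).resolve_right (hw0 a)
  set S := Submodule.span K (Set.range v) with hS
  have hcompl : IsCompl S T := by
    constructor
    · rw [Submodule.disjoint_def]
      intro x hxS hxU
      obtain ⟨l, rfl⟩ := (Submodule.mem_span_range_iff_exists_fun K).1 hxS
      have : ∀ a, l a = 0 := by
        intro a
        have h1 := (hT _).1 hxU a
        rw [hsum] at h1
        exact (mul_eq_zero.1 h1).resolve_right (hw0 a)
      simp [this]
    · rw [codisjoint_iff, eq_top_iff]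
      intro x _
      rw [Submodule.mem_sup]
      refine ⟨∑ a, (β (v a) x / w a) • v a, ?_, x - ∑ a, (β (v a) x / w a) • v a, ?_, by abel⟩
      · exact Submodule.sum_mem _ fun a _ =>
          Submodule.smul_mem _ _ (Submodule.subset_span ⟨a, rfl⟩)
      · rw [hT]
        intro a
        rw [map_sub, hsum, div_mul_cancel₀ _ (hw0 a), sub_self]
  set bS : Basis (Fin t) K S := Basis.span hli with hbS
  set bb : Basis (Fin t ⊕ Fin n) K V :=
    (bS.prod bT).map (Submodule.prodEquivOfIsCompl S T hcompl) with hbb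
  have h1 : ∀ a, bb (Sum.inl a) = v a := by
    intro a
    rw [hbb, Basis.map_apply]
    simp only [Basis.prod_apply, Sum.elim_inl, Function.comp_apply, LinearMap.coe_inl,
      Submodule.coe_prodEquivOfIsCompl', ZeroMemClass.coe_zero, add_zero]
    rw [hbS, Basis.span_apply]
  have h2 : ∀ i, bb (Sum.inr i) = bT i := by
    intro i
    rw [hbb, Basis.map_apply]
    simp only [Basis.prod_apply, Sum.elim_inr, Function.comp_apply, LinearMap.coe_inr,
      Submodule.coe_prodEquivOfIsCompl', ZeroMemClass.coe_zero, zero_add]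
  have hr : r = t + n := by
    have e1 := Module.finrank_eq_card_basis b
    have e2 := Module.finrank_eq_card_basis bb
    rw [Fintype.card_fin] at e1
    rw [Fintype.card_sum, Fintype.card_fin, Fintype.card_fin] at e2
    omega
  refine ⟨hr, ?_⟩
  obtain ⟨e⟩ : Nonempty (Fin r ≃ Fin t ⊕ Fin n) := by
    rw [hr]
    exact ⟨finSumFinEquiv.symm⟩
  obtain ⟨x, hx0, hx⟩ := gram_change b bb e β
  refine ⟨x, hx0, ?_⟩
  rw [← toMatrix₂_eq_gm, hx]
  congr 1
  have hYb : LinearMap.toMatrix₂ bb bb β =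
      fromBlocks (diagonal w) 0 0 (gm β fun i => (bT i : V)) := by
    conv_lhs => rw [← fromBlocks_toBlocks (LinearMap.toMatrix₂ bb bb β)]
    congr 1
    · ext a b
      change LinearMap.toMatrix₂ bb bb β (Sum.inl a) (Sum.inl b) = _
      rw [LinearMap.toMatrix₂_apply, h1, h1, Matrix.diagonal_apply]
      by_cases hab : a = b
      · subst hab
        rw [if_pos rfl, hw]
      · rw [if_neg hab, ho a b hab]
    · ext a i
      change LinearMap.toMatrix₂ bb bb β (Sum.inl a) (Sum.inr i) = 0
      rw [LinearMap.toMatrix₂_apply, h1, h2]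
      exact (hT _).1 (bT i).2 a
    · ext i a
      change LinearMap.toMatrix₂ bb bb β (Sum.inr i) (Sum.inl a) = 0
      rw [LinearMap.toMatrix₂_apply, h1, h2, hsy]
      exact (hT _).1 (bT i).2 a
    · ext i j
      change LinearMap.toMatrix₂ bb bb β (Sum.inr i) (Sum.inr j) = _
      rw [LinearMap.toMatrix₂_apply, h2, h2]
      rfl
  rw [hYb, Matrix.det_fromBlocks_zero₁₂, Matrix.det_diagonal]

/-- **The discriminants of similar forms of odd rank.** -/
theorem sim_disc {V' : Type*} [AddCommGroup V'] [Module K V'] {β : V →ₗ[K] V →ₗ[K] K}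
    {β' : V' →ₗ[K] V' →ₗ[K] K} (φ : V →ₗ[K] V') (hφ : Function.Bijective φ) {lam : K}
    (hl : lam ≠ 0) (hβ : ∀ x y, β' (φ x) (φ y) = lam * β x y) {n n' : ℕ}
    (b : Basis (Fin n) K V) (b' : Basis (Fin n') K V') (hn : Odd n) :
    ∃ y : K, lam * (gm β b).det * (gm β' b').det = y ^ 2 := by
  set Φ : V ≃ₗ[K] V' := LinearEquiv.ofBijective φ hφ with hΦ
  set b'' := b.map Φ with hb''
  have hn' : n = n' := by
    have e1 := Module.finrank_eq_card_basis b''
    have e2 := Module.finrank_eq_card_basis b'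
    rw [Fintype.card_fin] at e1 e2
    omega
  subst hn'
  obtain ⟨x, hx0, hx⟩ := gram_change b'' b' (Equiv.refl _) β'
  have h1 : (LinearMap.toMatrix₂ b'' b'' β').det = lam ^ n * (gm β b).det := by
    have h2 : LinearMap.toMatrix₂ b'' b'' β' = lam • gm β b := by
      ext i j
      rw [LinearMap.toMatrix₂_apply, Matrix.smul_apply, hb'', Basis.map_apply, Basis.map_apply]
      exact hβ _ _
    rw [h2, Matrix.det_smul, Fintype.card_fin]
  rw [h1, toMatrix₂_eq_gm] at hx
  obtain ⟨s, rfl⟩ := hn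
  refine ⟨(gm β' b').det * x / lam ^ s, ?_⟩
  have hs : lam ^ s ≠ 0 := pow_ne_zero _ hl
  have h3 : (gm β b).det = (gm β' b').det * x ^ 2 / lam ^ (2 * s + 1) := by
    rw [← hx]
    field_simp
  have h4 : lam ^ (2 * s + 1) = lam ^ s * lam ^ s * lam := by ring
  rw [h3, h4]
  field_simp

end Pool.Agent.W5h89.Odd
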