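import Pool.Agent.W5h89.Odd.Prim
import Pool.Agent.W552.Main

/-!
# Products of two varieties whose transcendental cohomology is absolutely irreducible and of odd
# rank
-/

open CategoryTheory AlgebraicGeometry Finset

set_option linter.unusedSectionVars false

universe u v w

namespace Pool.Agent.W5h89.Odd

open Pool.Agent.H914 Pool.Agent.H914.VarClass Pool.Agent.H914.VarClass.Obj
  Pool.Agent.H914.WeilCohomology Pool.Agent.H281R3.HT Pool.Agent.W552 Pool.Agent.H447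
  Pool.Agent.TH125.Gal Pool.Agent.W539.Ker Pool.Agent.W5h89.Disc
open Pool.Agent.W5h89.Half (NumPrimitive NumTrivial)

variable {k : Type u} [Field k] {𝒱 : VarClass k} {ops : CycleOps 𝒱}

section one

variable {W : WeilCohomology.{u, v} ops} {P Q : Polarized 𝒱} {Γ : Type w} [Group Γ]
  {χ : Γ →* W.Kˣ} {j j' r r' : ℕ} {δ δ' : ℚ}

/-- The conditions on a polarized variety. -/
structure Mem (W : WeilCohomology.{u, v} ops) (P : Polarized 𝒱)
    (ρ : Γ →* (W.H P.X ≃ₐ[W.K] W.H P.X)) (j r : ℕ) (δ : ℚ) : Prop where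
  pol : IsPolarization W P.X P.D
  middle : transcendental W P.X ≤ W.gr P.X P.X.dim
  irred : IrredAct ρ (transcendental W P.X)
  scal : ∀ Δ : Subgroup Γ, Δ.FiniteIndex →
      ScalarCommutant (transcendental W P.X) fun (g : Δ) a => ρ g a
  odd : transcendental W P.X = ⊥ ∨ Odd (transRank W P.X)
  disc : HasDisc W P j r δ

theorem Mem.frame {ρ : Γ →* (W.H P.X ≃ₐ[W.K] W.H P.X)} (h : Mem W P ρ j r δ) :
    ∃ f, Fp W P.X P.D f := by
  obtain ⟨f, F, -⟩ := exists_Fp h.pol.div h.pol.hard h.pol.lefschetz h.pol.hodge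
  exact ⟨f, F⟩

theorem Mem.homEqNum {ρ : Γ →* (W.H P.X ≃ₐ[W.K] W.H P.X)} (h : Mem W P ρ j r δ) :
    HomEqNum W P.X := by
  obtain ⟨f, F⟩ := h.frame
  exact F.hodge.2

theorem Mem.lefschetzA {ρ : Γ →* (W.H P.X ≃ₐ[W.K] W.H P.X)} (h : Mem W P ρ j r δ) :
    LefschetzA W P.X P.D := by
  obtain ⟨f, F⟩ := h.frame
  exact F.fr.lefschetzA

/-- The numerical form of the condition `Ex`. -/
def NEx (ops : CycleOps 𝒱) (A B : 𝒱.Obj) (m : ℕ) (y : (A.prod B).Cycles) : Prop :=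
  ∀ i a, A.IsCyc i a → ∀ i' b, B.IsCyc i' b → i + m + i' = (A.prod B).dim →
    (A.prod B).V.degCycle (ops.mul (ops.mul (ops.pull (fst A B) a) y) (ops.pull (snd A B) b)) = 0

theorem tr_triple {A B : 𝒱.Obj} {m : ℕ} {y : (A.prod B).Cycles} (hy : (A.prod B).IsCyc m y)
    {i : ℕ} {a : A.Cycles} (ha : A.IsCyc i a) {i' : ℕ} {b : B.Cycles} (hb : B.IsCyc i' b)
    (h : i + m + i' = (A.prod B).dim) :
    W.tr B (cn (W.cl A a) (W.cl (A.prod B) y) * W.cl B b) =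
      ((A.prod B).V.degCycle (ops.mul (ops.mul (ops.pull (fst A B) a) y)
        (ops.pull (snd A B) b)) : ℚ) := by
  rw [tr_cn, ← W.cl_pull, ← W.cl_pull, ← W.cl_mul, ← W.cl_mul, W.tr_cl]
  exact h ▸ ops.mul_mem (ops.mul_mem (ops.pull_mem _ ha) hy) (ops.pull_mem _ hb)

theorem nex_of_ex {A B : 𝒱.Obj} {m : ℕ} {y : (A.prod B).Cycles} (hy : (A.prod B).IsCyc m y)
    (h : Ex W A B (W.cl (A.prod B) y)) : NEx ops A B m y := by
  intro i a ha i' b hb hi
  have h1 := tr_triple (W := W) hy ha hb hi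
  rw [h.2 _ (W552.AS.of ⟨a, ha, rfl⟩), zero_mul, map_zero] at h1
  exact_mod_cast h1.symm

theorem ex_of_nex {A B : 𝒱.Obj} {m : ℕ} {y : (A.prod B).Cycles} (hDB : HomEqNum W B)
    (hy : (A.prod B).IsCyc m y)
    (h : NEx ops A B m y) : Ex W A B (W.cl (A.prod B) y) := by
  have hyA : W552.AS W _ (W.cl (A.prod B) y) := W552.AS.of ⟨y, hy, rfl⟩
  refine ⟨hyA, fun u hu => homEqNum_iff.1 hDB _ (cn_AS hu hyA) fun w hw => ?_⟩
  refine W552.AS.ind (p := fun w => W.tr B (cn u (W.cl (A.prod B) y) * w) = 0) ?_ ?_ hw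
  · rintro i' _ ⟨b, hb, rfl⟩
    refine W552.AS.ind (p := fun u => W.tr B (cn u (W.cl (A.prod B) y) * W.cl B b) = 0) ?_ ?_ hu
    · rintro i _ ⟨a, ha, rfl⟩
      by_cases hi : i + m + i' = (A.prod B).dim
      · rw [tr_triple hy ha hb hi, h i a ha i' b hb hi, Rat.cast_zero]
      · rw [tr_cn]
        refine W.tr_eq_zero (W.mul_mem (W.mul_mem (W.map_mem _ (W.cl_mem ha)) (W.cl_mem hy))
          (W.map_mem _ (W.cl_mem hb))) ?_
        omega
    · intro a b ha hb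
      rw [cn_add', add_mul, map_add, ha, hb, add_zero]
  · intro a b ha hb
    rw [mul_add, map_add, ha, hb, add_zero]

/-- **The discriminants and the self-intersection.** -/
theorem at_l {G : Set (GVar W Γ)} (hG : GaloisClass χ G)
    {ρ : Γ →* (W.H P.X ≃ₐ[W.K] W.H P.X)} {τ : Γ →* (W.H Q.X ≃ₐ[W.K] W.H Q.X)}
    (hρ : (⟨P.X, ρ⟩ : GVar W Γ) ∈ G) (hτ : (⟨Q.X, τ⟩ : GVar W Γ) ∈ G)
    (hP : Mem W P ρ j r δ) (hQ : Mem W Q τ j' r' δ') (hd : P.X.dim = 2 * j)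
    (hd' : Q.X.dim = 2 * j') {t t' : ℕ} {z : Fin t → P.X.Cycles} {z' : Fin t' → Q.X.Cycles}
    (hz : IsMax ops P j z) (hz' : IsMax ops Q j' z') {y : (P.X.prod Q.X).Cycles}
    (hy : (P.X.prod Q.X).IsCyc (j + j') y) (h : Ex W P.X Q.X (W.cl (P.X.prod Q.X) y))
    (h0 : W.cl (P.X.prod Q.X) y ≠ 0) :
    t < r ∧ (P.X.prod Q.X).V.degCycle (ops.mul y y) ≠ 0 ∧ ∃ x : W.K,
      ((((-1) ^ j * (-1) ^ j' * (P.X.prod Q.X).V.degCycle (ops.mul y y)) * ((r - t : ℕ) : ℚ) *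
        (δ * ∏ a, pairing ops P.X P.D j (z a) (z a)) *
        (δ' * ∏ a, pairing ops Q.X Q.D j' (z' a) (z' a)) : ℚ) : W.K) = x ^ 2 := by
  obtain ⟨s⟩ := exists_SB hP.homEqNum
  obtain ⟨s'⟩ := exists_SB hQ.homEqNum
  obtain ⟨hr, x, hx0, hx⟩ := disc_T hP.pol.div hP.lefschetzA hP.homEqNum hP.middle hd hz hP.disc s
  obtain ⟨hr', x', hx0', hx'⟩ :=
    disc_T hQ.pol.div hQ.lefschetzA hQ.homEqNum hQ.middle hd' hz' hQ.disc s'
  obtain ⟨υ, hυ1, hυ2, hυ⟩ := hG.prod' hρ hτ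
  set c := W.cl (P.X.prod Q.X) y with hc
  obtain ⟨mu, hmu0, hmu, hinj, hsurj⟩ := h.schur hP.homEqNum hQ.homEqNum hP.middle hQ.middle hd hd'
    (isGalois (hG.galois _ hρ)) (isGalois (hG.galois _ hτ)) (isGalois (hG.galois _ hυ)) hυ1 hυ2
    hP.irred hQ.irred hP.scal s h0 ⟨y, hy, rfl⟩
  have htr := h.tr_sq hP.homEqNum hP.middle hQ.middle hd hd' s hmu
  have hdeg : W.tr (P.X.prod Q.X) (c * c) =
      ((P.X.prod Q.X).V.degCycle (ops.mul y y) : ℚ) := by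
    rw [hc, ← W.cl_mul, W.tr_cl]
    have := ops.mul_mem hy hy
    rwa [show j + j' + (j + j') = (P.X.prod Q.X).dim by rw [dim_prod]; omega] at this
  have hNT : s.NT ≠ 0 := by
    intro hN
    apply h0
    rw [h.expand hP.homEqNum hP.middle hQ.middle hd hd' s]
    refine Finset.sum_eq_zero fun i _ => absurd i.2 (by omega)
  have hrank : transRank W P.X = s.NT := by
    have := Module.finrank_eq_card_basis s.bT
    rwa [Fintype.card_fin] at this
  have hodd : Odd s.NT := by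
    rcases hP.odd with h1 | h1
    · exfalso
      apply hNT
      rw [← hrank, transRank, h1, finrank_bot]
    · rwa [hrank] at h1
  set d : ℚ := (P.X.prod Q.X).V.degCycle (ops.mul y y) with hdd
  have hdK : (d : W.K) = mu * s.NT := by rw [← hdeg, htr]
  have hd0 : d ≠ 0 := by
    intro hd0
    rw [hd0, Rat.cast_zero] at hdK
    exact mul_ne_zero hmu0 (by exact_mod_cast hNT) hdK.symm
  refine ⟨by omega, hd0, ?_⟩
  -- the similitude
  set φ : transcendental W P.X →ₗ[W.K] transcendental W Q.X :=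
    (cnL c).restrict (fun x _ => h.trans hP.homEqNum) with hφ
  have hφa : ∀ x, (φ x : W.H Q.X) = cn (x : W.H P.X) c := fun x => rfl
  have hbij : Function.Bijective φ := by
    constructor
    · rw [injective_iff_map_eq_zero]
      intro x hx
      apply Subtype.ext
      refine hinj x x.2 ?_
      rw [← hφa, hx]
      rfl
    · intro y
      obtain ⟨x, hx, hx'⟩ := hsurj y y.2
      exact ⟨⟨x, hx⟩, Subtype.ext hx'⟩
  obtain ⟨u, hu⟩ := sim_disc (β := ((-1 : W.K) ^ j) • rform W P.X (transcendental W P.X))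
    (β' := ((-1 : W.K) ^ j') • rform W Q.X (transcendental W Q.X)) φ hbij
    (lam := (-1) ^ j * (-1) ^ j' * mu)
    (mul_ne_zero (mul_ne_zero (pow_ne_zero _ (by norm_num)) (pow_ne_zero _ (by norm_num))) hmu0)
    (fun x y => by
      simp only [LinearMap.smul_apply, smul_eq_mul, rform_apply, hφa]
      rw [hmu x x.2 y y.2]
      have h1 : ((-1 : W.K) ^ j) * (-1 : W.K) ^ j = 1 := by rw [← mul_pow]; norm_num
      linear_combination (-(-1 : W.K) ^ j' * mu * bil W P.X x y) * h1) s.bT s'.bT hodd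
  have e1 : gm (((-1 : W.K) ^ j) • rform W P.X (transcendental W P.X)) s.bT = gT j s := by
    ext a b
    rfl
  have e2 : gm (((-1 : W.K) ^ j') • rform W Q.X (transcendental W Q.X)) s'.bT = gT j' s' := by
    ext a b
    rfl
  rw [e1, e2] at hu
  refine ⟨(s.NT : W.K) * ((∏ a, pairing ops P.X P.D j (z a) (z a) : ℚ) : W.K) *
    ((∏ a, pairing ops Q.X Q.D j' (z' a) (z' a) : ℚ) : W.K) * x * x' * u, ?_⟩
  have hrt : r - t = s.NT := by omega
  rw [hrt]
  simp only [mul_pow]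
  rw [← hu]
  have hx2 := hx
  have hx2' := hx'
  set PA : ℚ := ∏ a, pairing ops P.X P.D j (z a) (z a) with hPA
  set PB : ℚ := ∏ a, pairing ops Q.X Q.D j' (z' a) (z' a) with hPB
  rw [Rat.cast_mul, Rat.cast_mul, Rat.cast_mul, Rat.cast_mul δ, Rat.cast_mul δ', hx2, hx2',
    Rat.cast_mul, hdK]
  push_cast
  ring

end one

/-- The conditions on two polarized varieties in a cohomology theory. -/
def PairMem (W : WeilCohomology.{u, v} ops) (Γ : Type w) [Group Γ] (P Q : Polarized 𝒱)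
    (j j' r r' : ℕ) (δ δ' : ℚ) : Prop :=
  ∃ (χ : Γ →* W.Kˣ) (G : Set (GVar W Γ)) (ρ : Γ →* (W.H P.X ≃ₐ[W.K] W.H P.X))
    (τ : Γ →* (W.H Q.X ≃ₐ[W.K] W.H Q.X)), GaloisClass χ G ∧ (⟨P.X, ρ⟩ : GVar W Γ) ∈ G ∧
      (⟨Q.X, τ⟩ : GVar W Γ) ∈ G ∧ Mem W P ρ j r δ ∧ Mem W Q τ j' r' δ'

/-- **The standard conjectures for the product of two varieties.** -/
theorem pair_main (p : ℕ) (W : ℕ → WeilCohomology.{u, v} ops)
    (hW : ∀ (l : ℕ) [Fact l.Prime], l ≠ p → Nonempty ((W l).K →+* ℚ_[l])) {Γ : Type w} [Group Γ]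
    {P Q : Polarized 𝒱} {j j' r r' : ℕ} {δ δ' : ℚ} (hd : P.X.dim = 2 * j)
    (hd' : Q.X.dim = 2 * j') (hδ : 0 < δ) (hδ' : 0 < δ')
    (h : ∀ l, l.Prime → l ≠ p → PairMem (W l) Γ P Q j j' r r' δ δ') {l0 : ℕ} (hl0 : l0.Prime)
    (hl0p : l0 ≠ p) : HodgeType (W l0) (P.prod ops Q).X (P.prod ops Q).D ∧
      HomEqNum (W l0) (P.X.prod Q.X) := by
  obtain ⟨χ, G, ρ, τ, hG, hρ, hτ, hP, hQ⟩ := h l0 hl0 hl0p
  obtain ⟨f, F⟩ := hP.frame
  obtain ⟨g, F'⟩ := hQ.frame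
  obtain ⟨t, z, hz⟩ := exists_max (j := j) hP.pol.div hP.homEqNum hP.pol.hodge (by omega)
  obtain ⟨t', z', hz'⟩ := exists_max (j := j') hQ.pol.div hQ.homEqNum hQ.pol.hodge (by omega)
  refine (fp_of_ex F F' hP.middle hQ.middle hd hd' fun c hc hc0 => ?_).hodge
  obtain ⟨y, hy, rfl⟩ := hc.alg_mem hP.homEqNum hP.middle hQ.middle hd hd'
  have hnex := nex_of_ex hy hc
  have hdeg := (at_l hG hρ hτ hP hQ hd hd' hz hz' hy hc hc0).2.1
  have htr := (at_l hG hρ hτ hP hQ hd hd' hz hz' hy hc hc0).1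
  set d : ℚ := (P.X.prod Q.X).V.degCycle (ops.mul y y) with hdd
  have hcyc : (P.X.prod Q.X).IsCyc (P.X.prod Q.X).dim (ops.mul y y) := by
    have := ops.mul_mem hy hy
    rwa [show j + j' + (j + j') = (P.X.prod Q.X).dim by rw [dim_prod]; omega] at this
  have hrt : (0 : ℚ) < ((r - t : ℕ) : ℚ) := by
    have : 0 < r - t := by omega
    exact_mod_cast this
  have hA : 0 < δ * ∏ a, pairing ops P.X P.D j (z a) (z a) :=
    mul_pos hδ (Finset.prod_pos fun a _ => hz.2.1 a)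
  have hB : 0 < δ' * ∏ a, pairing ops Q.X Q.D j' (z' a) (z' a) :=
    mul_pos hδ' (Finset.prod_pos fun a _ => hz'.2.1 a)
  have hsg0 : ((-1 : ℚ) ^ j * (-1) ^ j' * d) ≠ 0 :=
    mul_ne_zero (mul_ne_zero (pow_ne_zero _ (by norm_num)) (pow_ne_zero _ (by norm_num))) hdeg
  have hpos : 0 < ((-1 : ℚ) ^ j * (-1) ^ j' * d) * ((r - t : ℕ) : ℚ) *
        (δ * ∏ a, pairing ops P.X P.D j (z a) (z a)) *
        (δ' * ∏ a, pairing ops Q.X Q.D j' (z' a) (z' a)) := by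
    refine pos_of_squares p _ ?_ ?_
    · exact mul_ne_zero (mul_ne_zero (mul_ne_zero hsg0 hrt.ne') hA.ne') hB.ne'
    · intro l hl hlp
      obtain ⟨i⟩ := hW l hlp
      obtain ⟨χ, G, ρ, τ, hG, hρ, hτ, hP, hQ⟩ := h l hl.out hlp
      have hex := ex_of_nex hQ.homEqNum hy hnex
      have hne : (W l).cl (P.X.prod Q.X) y ≠ 0 := by
        intro h0
        apply hdeg
        have h1 := (W l).tr_cl hcyc
        rw [(W l).cl_mul, h0, zero_mul, map_zero] at h1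
        exact_mod_cast h1.symm
      obtain ⟨-, -, x, hx⟩ := at_l hG hρ hτ hP hQ hd hd' hz hz' hy hex hne
      refine ⟨i x, ?_⟩
      have := congrArg i hx
      rwa [map_ratCast, map_pow] at this
  have hd1 : 0 < ((-1 : ℚ) ^ j * (-1) ^ j' * d) := by
    have h1 := (pos_iff_pos_of_mul_pos hpos).2 hB
    have h2 := (pos_iff_pos_of_mul_pos h1).2 hA
    exact (pos_iff_pos_of_mul_pos h2).2 hrt
  refine ⟨_, hd1, ?_⟩
  rw [hc.bf_eq F F' hP.middle hQ.middle hd hd', ← (W l0).cl_mul, (W l0).tr_cl hcyc, hd, hd',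
    sg_two_mul, sg_two_mul]
  push_cast
  rfl

end Pool.Agent.W5h89.Odd
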