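import Pool.Agent.TH125.Gal.Sqr

/-!
# The classes on a product of two varieties which come from the transcendental cohomology
-/

open CategoryTheory AlgebraicGeometry Finset

set_option linter.unusedSectionVars false

universe u v w

namespace Pool.Agent.W5h89.Odd

open Pool.Agent.H914 Pool.Agent.H914.VarClass Pool.Agent.H914.VarClass.Obj
  Pool.Agent.H914.WeilCohomology Pool.Agent.H281R3.HT Pool.Agent.W552 Pool.Agent.H447
  Pool.Agent.TH125.Gal

variable {k : Type u} [Field k] {𝒱 : VarClass k} {ops : CycleOps 𝒱}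
  {W : WeilCohomology.{u, v} ops} {A B : 𝒱.Obj}

theorem cn_add' (u u' : W.H A) (c : W.H (A.prod B)) : cn (u + u') c = cn u c + cn u' c := by
  rw [cn, map_add, add_mul, map_add]
  rfl

theorem cn_smul' (r : W.K) (u : W.H A) (c : W.H (A.prod B)) : cn (r • u) c = r • cn u c := by
  rw [cn, map_smul, smul_mul_assoc, map_smul]
  rfl

theorem cn_sum' {ι : Type*} (s : Finset ι) (u : ι → W.H A) (c : W.H (A.prod B)) :
    cn (∑ i ∈ s, u i) c = ∑ i ∈ s, cn (u i) c := by
  unfold cn
  rw [map_sum, Finset.sum_mul, map_sum]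

theorem cn_sum {ι : Type*} (s : Finset ι) (u : W.H A) (c : ι → W.H (A.prod B)) :
    cn u (∑ i ∈ s, c i) = ∑ i ∈ s, cn u (c i) := by
  unfold cn
  rw [Finset.mul_sum, map_sum]

theorem cn_sub (u : W.H A) (c c' : W.H (A.prod B)) : cn u (c - c') = cn u c - cn u c' := by
  rw [cn, mul_sub, map_sub]
  rfl

/-- A sum of algebraic classes all of whose contractions with algebraic classes of the first factor
vanish. -/
def Ex (W : WeilCohomology.{u, v} ops) (A B : 𝒱.Obj) (c : W.H (A.prod B)) : Prop :=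
  W552.AS W (A.prod B) c ∧ ∀ u, W552.AS W A u → cn u c = 0

theorem Ex.alg {c : W.H (A.prod B)} (h : Ex W A B c) {u : W.H A} (hu : u ∈ algSpan W A) :
    cn u c = 0 := by
  induction hu using Submodule.span_induction with
  | mem c hc =>
    obtain ⟨j, hj⟩ := Set.mem_iUnion.1 hc
    exact h.2 _ (W552.AS.of hj)
  | zero =>
    have := cn_smul' (0 : W.K) (0 : W.H A) c
    rwa [smul_zero, zero_smul] at this
  | add x y _ _ hx hy => rw [cn_add', hx, hy, add_zero]
  | smul q x _ hx => rw [cn_smul', hx, smul_zero]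

/-- The contractions with transcendental classes are transcendental. -/
theorem Ex.trans (hDA : HomEqNum W A) {c : W.H (A.prod B)} (h : Ex W A B c) {t : W.H A}
    : cn t c ∈ transcendental W B := by
  rw [mem_trans]
  intro j w hw
  have hcw : W552.AS W (A.prod B) (c * W.map (snd A B) w) := h.1.mul ((W552.AS.of hw).map _)
  have h0 : W.push (fst A B) (c * W.map (snd A B) w) = 0 := by
    refine homEqNum_iff.1 hDA _ (hcw.push _) fun u hu => ?_
    rw [W.tr_push, hcw.comm, ← mul_assoc, ← tr_cn, h.2 u hu, zero_mul, map_zero]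
  rw [bil_apply, tr_cn, mul_assoc, ← hcw.comm, ← W.tr_push, h0, zero_mul, map_zero]

/-- Decomposition into an algebraic and a transcendental class. -/
theorem hdec (hDX : HomEqNum W A) (x : W.H A) :
    ∃ c ∈ algSpan W A, ∃ t ∈ transcendental W A, x = c + t := by
  have hb : x ∈ algSpan W A ⊔ transcendental W A := by
    rw [(isCompl hDX).sup_eq_top]; exact Submodule.mem_top
  obtain ⟨c, hc, t, ht, rfl⟩ := Submodule.mem_sup.1 hb
  exact ⟨c, hc, t, ht, rfl⟩

/-- Two classes with the same contractions are equal. -/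
theorem ext_cn {c c' : W.H (A.prod B)} (hc : ∀ y, c * y = y * c) (hc' : ∀ y, c' * y = y * c')
    (h : ∀ x : W.H A, cn x c = cn x c') : c = c' := by
  apply W.tr_ext
  intro b
  refine W.kunneth_induction (p := fun b => W.tr (A.prod B) (c * b) =
    W.tr (A.prod B) (c' * b)) ?_ ?_ b
  · intro a b ha hb
    rw [mul_add, mul_add, map_add, map_add, ha, hb]
  · intro i j x hx y hy
    rw [← mul_assoc, ← mul_assoc, hc, hc', ← tr_cn, ← tr_cn, h]

/-- even transcendental classes commute -/
theorem trans_comm {X : 𝒱.Obj} (hmid : transcendental W X ≤ W.gr X X.dim) {j : ℕ}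
    (hj : X.dim = 2 * j) {Y : 𝒱.Obj} (g : Y ⟶ X) {t : W.H X} (ht : t ∈ transcendental W X)
    (a : W.H Y) : W.map g t * a = a * W.map g t := by
  have h1 := hmid ht
  rw [hj] at h1
  exact W.even_comm (W.map_mem g h1) a

/-- **Expansion.** -/
theorem Ex.expand (hDA : HomEqNum W A) (hA : transcendental W A ≤ W.gr A A.dim)
    (hB : transcendental W B ≤ W.gr B B.dim) {j j' : ℕ} (hj : A.dim = 2 * j) (hj' : B.dim = 2 * j')
    (s : SB W A) {c : W.H (A.prod B)} (h : Ex W A B c) :
    c = ∑ i, H281R3.HT.ext W (s.uT i : W.H A) (cn (s.bT i : W.H A) c) := by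
  refine ext_cn (fun y => h.1.comm y) (fun y => ?_) fun x => ?_
  · rw [Finset.sum_mul, Finset.mul_sum]
    refine Finset.sum_congr rfl fun i _ => ?_
    rw [H281R3.HT.ext, mul_assoc, trans_comm hB hj' (snd A B) (h.trans hDA), ← mul_assoc,
      trans_comm hA hj (fst A B) (s.uT i).2, mul_assoc]
  · rw [cn_sum]
    have e1 : ∀ i, cn x (H281R3.HT.ext W (s.uT i : W.H A) (cn (s.bT i : W.H A) c)) =
        bil W A x (s.uT i) • cn (s.bT i : W.H A) c := by
      intro i
      rw [H281R3.HT.ext, cn_ext, bil_apply]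
    rw [Finset.sum_congr rfl fun i _ => e1 i]
    obtain ⟨a, ha, t, ht, rfl⟩ := hdec hDA x
    rw [cn_add', h.alg ha, zero_add]
    conv_lhs => rw [s.expand_T ht]
    rw [cn_sum']
    refine Finset.sum_congr rfl fun i _ => ?_
    rw [cn_smul', map_add, LinearMap.add_apply, alg_trans (s.uT i).2 ha, zero_add,
      trans_symm hA ht (s.uT i).2, hj, pow_mul, neg_one_sq, one_pow, one_mul]

section

variable {D : A.Cycles} {f : Module.End W.K (W.H A)} {N : ℕ} {e : Fin N → W.H A}
  {w : Fin N → ℚ}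

/-- Expansion in the dual basis. -/
theorem expand_st (F : Fp W A D f) (he : ∀ k, W552.AS W A (e k)) (hw : ∀ k, 0 < w k)
    (horth : ∀ k l, bf W A D f (e k) (e l) = if k = l then (w k : W.K) else 0)
    (hexp : ∀ x ∈ algSpan W A, x = ∑ k, ((w k : W.K)⁻¹ * bf W A D f x (e k)) • e k)
    {x : W.H A} (hx : x ∈ algSpan W A) :
    x = ∑ k, ((w k : W.K)⁻¹ * bil W A x (e k)) • st W A D f (e k) := by
  have hDX := F.hodge.2
  set y : W.H A := ∑ k, ((w k : W.K)⁻¹ * bil W A x (e k)) • st W A D f (e k) with hy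
  have hst : ∀ k, st W A D f (e k) ∈ algSpan W A := fun k => as_algSpan (F.fr.st_AS (he k))
  have hyA : y ∈ algSpan W A := Submodule.sum_mem _ fun k _ => Submodule.smul_mem _ _ (hst k)
  have hw' : ∀ k, (w k : W.K) ≠ 0 := fun k => by exact_mod_cast (hw k).ne'
  have h1 : ∀ l, bil W A (x - y) (e l) = 0 := by
    intro l
    rw [map_sub, LinearMap.sub_apply, hy, map_sum, LinearMap.sum_apply, Finset.sum_eq_single l]
    · rw [map_smul, LinearMap.smul_apply, bil_apply (st W A D f (e l)), alg_comm (hst l),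
        ← bf_apply, horth, if_pos rfl, smul_eq_mul, mul_comm (w l : W.K)⁻¹, mul_assoc,
        inv_mul_cancel₀ (hw' l), mul_one, sub_self]
    · intro k _ hk
      rw [map_smul, LinearMap.smul_apply, bil_apply (st W A D f (e k)), alg_comm (hst k),
        ← bf_apply, horth, if_neg (Ne.symm hk), smul_zero]
    · intro h
      exact absurd (Finset.mem_univ _) h
  have h2 : (⟨x - y, Submodule.sub_mem _ hx hyA⟩ : algSpan W A) = 0 := by
    refine alg_nondeg hDX _ fun b => ?_
    rw [rform_apply]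
    conv_lhs => rw [hexp b b.2]
    rw [map_sum]
    refine Finset.sum_eq_zero fun l _ => ?_
    rw [map_smul, h1, smul_zero]
  exact sub_eq_zero.1 (congrArg Subtype.val h2)

/-- **Positivity of the form on the algebraic classes of a product**: it is enough to consider the
classes all of whose contractions with algebraic classes of the first factor vanish. -/
theorem fp_of_ex (F : Fp W A D f) {E : B.Cycles} {g : Module.End W.K (W.H B)} (G : Fp W B E g)
    (hA : transcendental W A ≤ W.gr A A.dim) (hB : transcendental W B ≤ W.gr B B.dim) {j j' : ℕ}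
    (hj : A.dim = 2 * j) (hj' : B.dim = 2 * j')
    (hpos : ∀ c, Ex W A B c → c ≠ 0 → ∃ q : ℚ, 0 < q ∧
      bf W (A.prod B) (ops.pull (fst A B) D + ops.pull (snd A B) E) (extSum W f g) c c = q) :
    Fp W (A.prod B) (ops.pull (fst A B) D + ops.pull (snd A B) E) (extSum W f g) := by
  have hDA := F.hodge.2
  have FF := F.fr.prod G.fr
  have FS := F.sy.prod F.fr G.fr G.sy
  refine ⟨FF, FS, ?_⟩
  obtain ⟨N, e, w, he, hw, horth, hexp⟩ := F.exists_onb
  obtain ⟨s⟩ := exists_SB hDA
  have hw' : ∀ k, (w k : W.K) ≠ 0 := fun k => by exact_mod_cast (hw k).ne'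
  intro c hc hc0
  set z : Fin N → W.H B := fun k => cn (st W A D f (e k)) c with hz
  have hzA : ∀ k, W552.AS W B (z k) := fun k => cn_AS (F.fr.st_AS (he k)) hc
  set c0 : W.H (A.prod B) := ∑ k, (((w k)⁻¹ : ℚ) : W.K) • H281R3.HT.ext W (e k) (z k) with hc0'
  have hc0A : W552.AS W (A.prod B) c0 :=
    W552.AS.ratSub.sum _ fun k _ => ((he k).ext (hzA k)).smul _
  set c1 : W.H (A.prod B) := c - c0 with hc1'
  have hc1 : Ex W A B c1 := by
    refine ⟨W552.AS.ratSub.sub hc hc0A, fun u hu => ?_⟩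
    have hu' := expand_st F he hw horth hexp (as_algSpan hu)
    rw [hc1', cn_sub, hc0', cn_sum]
    conv_lhs => enter [1]; rw [hu', cn_sum']
    rw [← Finset.sum_sub_distrib]
    refine Finset.sum_eq_zero fun k _ => ?_
    rw [cn_smul', cn_smul, H281R3.HT.ext, cn_ext, bil_apply, smul_smul, hz]
    push_cast
    exact sub_self _
  have hexp1 := hc1.expand hDA hA hB hj hj' s
  have hce : c = c0 + c1 := by rw [hc1', add_sub_cancel]
  -- orthogonality
  have ho1 : ∀ k (b : W.H B), bf W (A.prod B) (ops.pull (fst A B) D + ops.pull (snd A B) E)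
      (extSum W f g) c1 (H281R3.HT.ext W (e k) b) = 0 := by
    intro k b
    rw [hexp1, map_sum, LinearMap.sum_apply]
    refine Finset.sum_eq_zero fun i _ => ?_
    rw [F.fr.bf_ext G.fr, bf_apply, ← bil_apply,
      trans_alg (s.uT i).2 (as_algSpan (F.fr.st_AS (he k))), zero_mul]
  have ho2 : bf W (A.prod B) (ops.pull (fst A B) D + ops.pull (snd A B) E)
      (extSum W f g) c1 c0 = 0 := by
    rw [hc0', map_sum]
    refine Finset.sum_eq_zero fun k _ => ?_
    rw [map_smul, ho1, smul_zero]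
  have ho3 : bf W (A.prod B) (ops.pull (fst A B) D + ops.pull (snd A B) E)
      (extSum W f g) c0 c1 = 0 := by
    rw [FS, par_AS hc1.1, ho2]
  -- the first part
  have hp0 : ∀ k, ∃ q : ℚ, 0 ≤ q ∧ (z k ≠ 0 → 0 < q) ∧ bf W B E g (z k) (z k) = q := by
    intro k
    by_cases h0 : z k = 0
    · exact ⟨0, le_rfl, fun h => absurd h0 h, by rw [h0]; simp⟩
    · obtain ⟨q, hq, hq'⟩ := G.pos _ (hzA k) h0
      exact ⟨q, hq.le, fun _ => hq, hq'⟩
  choose q hq0 hq1 hq2 using hp0
  have hval0 : bf W (A.prod B) (ops.pull (fst A B) D + ops.pull (snd A B) E)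
      (extSum W f g) c0 c0 = ((∑ k, (w k)⁻¹ * q k : ℚ) : W.K) := by
    rw [hc0', map_sum (bf W (A.prod B) _ _), LinearMap.sum_apply, Rat.cast_sum]
    refine Finset.sum_congr rfl fun k _ => ?_
    rw [map_sum, Finset.sum_eq_single k]
    · rw [map_smul, map_smul, LinearMap.smul_apply, F.fr.bf_ext G.fr, horth, if_pos rfl, hq2,
        smul_eq_mul, smul_eq_mul]
      push_cast
      rw [← mul_assoc, ← mul_assoc, inv_mul_cancel_right₀ (hw' k)]
    · intro l _ hl
      rw [map_smul, map_smul, LinearMap.smul_apply, F.fr.bf_ext G.fr, horth,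
        if_neg (Ne.symm hl), zero_mul, smul_zero, smul_zero]
    · intro h
      exact absurd (Finset.mem_univ _) h
  have hnn : (0 : ℚ) ≤ ∑ k, (w k)⁻¹ * q k :=
    Finset.sum_nonneg fun k _ => mul_nonneg (inv_nonneg.2 (hw k).le) (hq0 k)
  -- the second part
  have hp1 : ∃ r : ℚ, 0 ≤ r ∧ (c1 ≠ 0 → 0 < r) ∧
      bf W (A.prod B) (ops.pull (fst A B) D + ops.pull (snd A B) E)
        (extSum W f g) c1 c1 = r := by
    by_cases h0 : c1 = 0
    · exact ⟨0, le_rfl, fun h => absurd h0 h, by rw [h0]; simp⟩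
    · obtain ⟨r, hr, hr'⟩ := hpos c1 hc1 h0
      exact ⟨r, hr.le, fun _ => hr, hr'⟩
  obtain ⟨r, hr0, hr1, hr2⟩ := hp1
  refine ⟨∑ k, (w k)⁻¹ * q k + r, ?_, ?_⟩
  · by_cases h1 : c1 = 0
    · have hex : ∃ k ∈ Finset.univ, z k ≠ 0 := by
        by_contra h0
        push Not at h0
        apply hc0
        rw [hce, h1, add_zero, hc0']
        refine Finset.sum_eq_zero fun k hk => ?_
        rw [h0 k hk, H281R3.HT.ext, map_zero, mul_zero, smul_zero]
      obtain ⟨k, hk, hk0⟩ := hex
      exact add_pos_of_pos_of_nonneg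
        (Finset.sum_pos' (fun b _ => mul_nonneg (inv_nonneg.2 (hw b).le) (hq0 b))
          ⟨k, hk, mul_pos (inv_pos.2 (hw k)) (hq1 k hk0)⟩) hr0
    · exact add_pos_of_nonneg_of_pos hnn (hr1 h1)
  · rw [hce, map_add, map_add, LinearMap.add_apply, LinearMap.add_apply, ho2, ho3, hval0, hr2,
      zero_add, add_zero]
    push_cast
    rfl

end

end Pool.Agent.W5h89.Odd
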