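import Pool.Agent.W5h89.Odd.Schur
import Pool.Agent.W5h89.Odd.Lin
import Pool.Agent.W5h89.Disc.Conv

/-!
# The discriminant of the transcendental cohomology
-/

open CategoryTheory AlgebraicGeometry Finset

set_option linter.unusedSectionVars false

universe u v w

namespace Pool.Agent.W5h89.Odd

open Pool.Agent.H914 Pool.Agent.H914.VarClass Pool.Agent.H914.VarClass.Obj
  Pool.Agent.H914.WeilCohomology Pool.Agent.H281R3.HT Pool.Agent.W552 Pool.Agent.H447
  Pool.Agent.TH125.Gal Pool.Agent.W539.Ker Pool.Agent.W5h89.Disc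
open Pool.Agent.W5h89.Half (NumPrimitive NumTrivial)

variable {k : Type u} [Field k] {𝒱 : VarClass k} {ops : CycleOps 𝒱}
  {W : WeilCohomology.{u, v} ops} {P : Polarized 𝒱} {j : ℕ}

/-- Numerically primitive cycles have primitive classes. -/
theorem prim_cl (hDX : HomEqNum W P.X) (hD : P.X.IsCyc 1 P.D) (hj : 2 * j ≤ P.X.dim)
    {z : P.X.Cycles} (hz : NumPrimitive ops P.X P.D j z) :
    W.cl P.X (divPow ops P.D (P.X.dim - 2 * j + 1) z) = 0 := by
  have h1 := divPow_mem (ops := ops) hD (P.X.dim - 2 * j + 1) hz.1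
  rcases Nat.eq_zero_or_pos j with h0 | h0
  · subst h0
    have h2 := W.cl_mem h1
    rw [W.gr_eq_bot _ _ (by omega)] at h2
    exact (Submodule.mem_bot _).1 h2
  · rw [show j + (P.X.dim - 2 * j + 1) = P.X.dim - (j - 1) by omega] at h1
    refine hDX _ (by omega) _ h1 fun w hw => ?_
    rw [show P.X.dim - (P.X.dim - (j - 1)) = j - 1 by omega] at hw
    exact hz.2 (j - 1) w (by omega) hw

theorem prim_mem (hDX : HomEqNum W P.X) (hD : P.X.IsCyc 1 P.D) (hj : 2 * j ≤ P.X.dim)
    {z : P.X.Cycles} (hz : NumPrimitive ops P.X P.D j z) : W.cl P.X z ∈ primSub W P j := by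
  refine Submodule.mem_inf.2 ⟨W.cl_mem hz.1, ?_⟩
  rw [LinearMap.mem_ker, ← cl_divPow]
  exact prim_cl hDX hD hj hz

/-- The conjecture of Hodge type for cycles modulo numerical equivalence. -/
theorem hodgeIn (hH : HodgeType W P.X P.D) (hDX : HomEqNum W P.X) (hD : P.X.IsCyc 1 P.D)
    (hj : 2 * j ≤ P.X.dim) : HodgeIn ops P j := by
  intro z hz hnt
  refine hH j hj z hz.1 (prim_cl hDX hD hj hz) fun h0 => hnt fun w hw => ?_
  have h2 : P.X.IsCyc P.X.dim (ops.mul z w) := by
    have := ops.mul_mem hz.1 hw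
    rwa [show j + (P.X.dim - j) = P.X.dim by omega] at this
  have h3 := W.tr_cl h2
  rw [W.cl_mul, h0, zero_mul, map_zero] at h3
  exact_mod_cast h3.symm

/-- Transcendental classes are killed by the divisor. -/
theorem D_mul_trans (hD : P.X.IsCyc 1 P.D) (hmid : transcendental W P.X ≤ W.gr P.X P.X.dim)
    {t : W.H P.X} (ht : t ∈ transcendental W P.X) : W.cl P.X P.D * t = 0 := by
  have h1 : W.cl P.X P.D * t ∈ transcendental W P.X := by
    rw [mem_trans']
    intro c hc
    rw [bil_apply, alg_even_comm (W := W) ⟨P.D, hD, rfl⟩ t, mul_assoc, ← bil_apply]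
    exact trans_alg ht (algSpan_mul (TH125.Gal.alg_mem ⟨P.D, hD, rfl⟩) hc)
  have h2 : W.cl P.X P.D * t ∈ W.gr P.X (2 * 1 + P.X.dim) := W.mul_mem (W.cl_mem hD) (hmid ht)
  have h3 := hmid h1
  have h4 := proj_same (W.isInternal P.X) h2
  rw [proj_ne (W.isInternal P.X) h3 (by omega)] at h4
  exact h4.symm

/-- A maximal orthogonal system. -/
def IsMax (ops : CycleOps 𝒱) (P : Polarized 𝒱) (j : ℕ) {t : ℕ} (z : Fin t → P.X.Cycles) : Prop :=
  IsOrthogonal ops P j z ∧ (∀ a, 0 < pairing ops P.X P.D j (z a) (z a)) ∧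
    ∀ y, NumPrimitive ops P.X P.D j y → (∀ a, pairing ops P.X P.D j (z a) y = 0) →
      NumTrivial ops P.X j y

theorem exists_max (hD : P.X.IsCyc 1 P.D) (hDX : HomEqNum W P.X) (hH : HodgeType W P.X P.D)
    (hj : 2 * j ≤ P.X.dim) : ∃ (t : ℕ) (z : Fin t → P.X.Cycles), IsMax ops P j z := by
  classical
  set Q : ℕ → Prop := fun t => ∃ z : Fin t → P.X.Cycles, IsOrthogonal ops P j z ∧
    ∀ a, 0 < pairing ops P.X P.D j (z a) (z a) with hQ
  have hpe := fun {z w : P.X.Cycles} (hz : P.X.IsCyc j z) (hw : P.X.IsCyc j w) =>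
    pairing_eq W hD hj hz hw
  have hsymm : ∀ {z w : P.X.Cycles}, P.X.IsCyc j z → P.X.IsCyc j w →
      pairing ops P.X P.D j z w = pairing ops P.X P.D j w z := by
    intro z w hz hw
    have h1 : (pairing ops P.X P.D j z w : W.K) = pairing ops P.X P.D j w z := by
      rw [hpe hz hw, hpe hw hz, Disc.form_symm hD (W.cl_mem hz) (W.cl_mem hw)]
    exact_mod_cast h1
  have hbd : ∀ t, Q t → t ≤ Module.finrank W.K (W.H P.X) := by
    rintro t ⟨z, hz, hz0⟩
    have hli : LinearIndependent W.K fun a => W.cl P.X (z a) := by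
      rw [Fintype.linearIndependent_iff]
      intro l hl a
      have h1 : lform W P j (W.cl P.X (z a)) (∑ b, l b • W.cl P.X (z b)) =
          l a * pairing ops P.X P.D j (z a) (z a) := by
        unfold lform
        rw [map_sum, Finset.mul_sum, map_sum, Finset.mul_sum, Finset.sum_eq_single a]
        · have := hpe (hz.1 a).1 (hz.1 a).1
          unfold lform at this
          rw [map_smul, mul_smul_comm, map_smul, smul_eq_mul, this]
          ring
        · intro b _ hb
          have := hpe (hz.1 a).1 (hz.1 b).1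
          rw [hz.2 a b hb.symm] at this
          unfold lform at this
          rw [map_smul, mul_smul_comm, map_smul, smul_eq_mul, mul_left_comm, ← this]
          simp
        · intro h0
          exact absurd (Finset.mem_univ a) h0
      rw [hl] at h1
      unfold lform at h1
      rw [map_zero, mul_zero, map_zero, mul_zero] at h1
      refine (mul_eq_zero.1 h1.symm).resolve_right ?_
      exact_mod_cast (hz0 a).ne'
    have h2 := hli.fintype_card_le_finrank
    rwa [Fintype.card_fin] at h2
  have hQ0 : Q 0 := ⟨Fin.elim0, ⟨fun a => a.elim0, fun a => a.elim0⟩, fun a => a.elim0⟩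
  set N := Module.finrank W.K (W.H P.X) with hN
  set t := Nat.findGreatest Q N with ht
  obtain ⟨z, hz, hz0⟩ : Q t := Nat.findGreatest_spec (P := Q) (Nat.zero_le N) hQ0
  refine ⟨t, z, hz, hz0, fun y hy hyz => ?_⟩
  by_contra hnt
  have hpos := hodgeIn hH hDX hD hj y hy hnt
  have hQs : Q (t + 1) := by
    refine ⟨Fin.cons y z, ⟨fun a => ?_, fun a b hab => ?_⟩, fun a => ?_⟩
    · refine Fin.cases ?_ (fun i => ?_) a
      · exact hy
      · exact hz.1 i
    · revert hab
      refine Fin.cases ?_ (fun i => ?_) a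
      · refine Fin.cases ?_ (fun i => ?_) b
        · intro h
          exact absurd rfl h
        · intro _
          rw [Fin.cons_zero, Fin.cons_succ, hsymm hy.1 (hz.1 i).1]
          exact hyz i
      · refine Fin.cases ?_ (fun i' => ?_) b
        · intro _
          rw [Fin.cons_zero, Fin.cons_succ]
          exact hyz i
        · intro h
          rw [Fin.cons_succ, Fin.cons_succ]
          exact hz.2 i i' fun h' => h (by rw [h'])
    · refine Fin.cases ?_ (fun i => ?_) a
      · exact hpos
      · exact hz0 i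
  have h3 := Nat.le_findGreatest (P := Q) (hbd _ hQs) hQs
  omega

/-- the transcendental classes are the primitive classes which are orthogonal to the system -/
theorem mem_trans_iff (hD : P.X.IsCyc 1 P.D) (hA : LefschetzA W P.X P.D) (hDX : HomEqNum W P.X)
    (hmid : transcendental W P.X ≤ W.gr P.X P.X.dim) (hd : P.X.dim = 2 * j) {t : ℕ}
    {z : Fin t → P.X.Cycles} (hz : IsMax ops P j z) {x : W.H P.X} :
    x ∈ transcendental W P.X ↔
      x ∈ primSub W P j ∧ ∀ a, bil W P.X (W.cl P.X (z a)) x = 0 := by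
  have hj : 2 * j ≤ P.X.dim := by omega
  constructor
  · intro hx
    refine ⟨Submodule.mem_inf.2 ⟨?_, ?_⟩, fun a => ?_⟩
    · have := hmid hx
      rwa [hd] at this
    · rw [LinearMap.mem_ker, hd, Nat.sub_self, zero_add, pow_one, LinearMap.mulLeft_apply]
      exact D_mul_trans hD hmid hx
    · exact alg_trans hx (TH125.Gal.alg_mem ⟨z a, (hz.1.1 a).1, rfl⟩)
  · rintro ⟨hx, hxz⟩
    obtain ⟨hx1, hx2⟩ := Submodule.mem_inf.1 hx
    rw [LinearMap.mem_ker, hd, Nat.sub_self, zero_add, pow_one, LinearMap.mulLeft_apply] at hx2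
    -- primitive cycles
    have hprim : ∀ y, NumPrimitive ops P.X P.D j y → bil W P.X x (W.cl P.X y) = 0 := by
      intro y hy
      obtain ⟨N, hN⟩ := exists_space W hD hj
      obtain ⟨B, hB, hBs⟩ := exists_bilin W hD hj hN
      set Z : Fin t → N := fun a => ⟨z a, (hN _).2 (hz.1.1 a)⟩ with hZ
      set Y : N := ⟨y, (hN _).2 hy⟩ with hY
      set Y' : N := Y - ∑ a, (B (Z a) Y / B (Z a) (Z a)) • Z a with hY'
      have hZ0 : ∀ a, B (Z a) (Z a) ≠ 0 := by
        intro a
        rw [hB]
        exact (hz.2.1 a).ne'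
      have hort : ∀ a, B (Z a) Y' = 0 := by
        intro a
        rw [hY', map_sub, map_sum, Finset.sum_eq_single a]
        · rw [map_smul, smul_eq_mul, div_mul_cancel₀ _ (hZ0 a), sub_self]
        · intro b _ hb
          have h3 : B (Z a) (Z b) = 0 := by
            rw [hB]
            exact hz.1.2 a b hb.symm
          rw [map_smul, h3, smul_zero]
        · intro h0
          exact absurd (Finset.mem_univ a) h0
      have hnt : NumTrivial ops P.X j Y'.1 := by
        refine hz.2.2 _ ((hN _).1 Y'.2) fun a => ?_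
        have h3 := hort a
        rw [hB] at h3
        exact h3
      have hcl : W.cl P.X Y'.1 = 0 := hDX j (by omega) _ ((hN _).1 Y'.2).1 hnt
      have h4 : W.cl P.X y = ∑ a, ((B (Z a) Y / B (Z a) (Z a) : ℚ) : W.K) • W.cl P.X (z a) := by
        have h5 : Y'.1 = y - ∑ a, (B (Z a) Y / B (Z a) (Z a)) • z a := by
          rw [hY', Submodule.coe_sub, Submodule.coe_sum]
          rfl
        rw [h5, map_sub, sub_eq_zero, map_sum] at hcl
        rw [hcl]
        refine Finset.sum_congr rfl fun a _ => ?_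
        rw [W.cl_smul]
      rw [h4, map_sum]
      refine Finset.sum_eq_zero fun a _ => ?_
      rw [map_smul, bil_apply, ← W.even_comm (W.cl_mem (hz.1.1 a).1), ← bil_apply, hxz, smul_zero]
    rw [mem_trans]
    rintro i _ ⟨y, hy, rfl⟩
    by_cases hi : i = j
    swap
    · rw [bil_apply]
      exact W.tr_eq_zero (W.mul_mem hx1 (W.cl_mem hy)) (by omega)
    subst hi
    rcases Nat.eq_zero_or_pos i with h0 | h0
    · subst h0
      exact hprim y ⟨hy, fun m w hm => absurd hm (Nat.succ_ne_zero m)⟩
    · obtain ⟨m, rfl⟩ : ∃ m, i = m + 1 := ⟨i - 1, by omega⟩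
      have h2 : P.X.IsCyc (P.X.dim - m) (divPow ops P.D (P.X.dim - 2 * (m + 1) + 1) y) := by
        have := divPow_mem (ops := ops) hD (P.X.dim - 2 * (m + 1) + 1) hy
        rwa [show m + 1 + (P.X.dim - 2 * (m + 1) + 1) = P.X.dim - m by omega] at this
      obtain ⟨s, hs, hs'⟩ := hA m (by omega) _ h2
      have hDs : P.X.IsCyc (m + 1) (ops.mul P.D s) := by
        have := ops.mul_mem hD hs
        rwa [show 1 + m = m + 1 by ring] at this
      have hcyc : P.X.IsCyc (m + 1) (y - ops.mul P.D s) := by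
        have h3 := hy.add (hDs.smul (-1 : ℚ))
        rwa [neg_one_smul, ← sub_eq_add_neg] at h3
      have hpr : (LinearMap.mulLeft W.K (W.cl P.X P.D) ^ (P.X.dim - 2 * (m + 1) + 1))
          (W.cl P.X (y - ops.mul P.D s)) = 0 := by
        rw [map_sub, map_sub, W.cl_mul, ← cl_divPow, ← hs', cl_divPow, sub_eq_zero, ← L_succ]
        congr 2
        omega
      have h3 := hprim (y - ops.mul P.D s) ((numPrimitive_iff W hD hj).2 ⟨hcyc, fun n w _ _ => by
        rw [hpr, zero_mul, map_zero]⟩)
      rw [map_sub, map_sub, sub_eq_zero] at h3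
      rw [h3, bil_apply, W.cl_mul, ← mul_assoc, ← alg_even_comm (W := W) ⟨P.D, hD, rfl⟩ x, hx2,
        zero_mul, map_zero]

/-- The Gram matrix of the transcendental cohomology. -/
noncomputable def gT (j : ℕ) (s : SB W P.X) : Matrix (Fin s.NT) (Fin s.NT) W.K :=
  Matrix.of fun a b => (-1) ^ j * bil W P.X (s.bT a) (s.bT b)

/-- The middle primitive cohomology has a basis with the discriminant `δ`. -/
def HasDisc (W : WeilCohomology.{u, v} ops) (P : Polarized 𝒱) (j r : ℕ) (δ : ℚ) : Prop :=
  ∃ b : Module.Basis (Fin r) W.K (primSub W P j),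
    (Matrix.of fun a c => lform W P j (b a) (b c)).det = (δ : W.K)

/-- **The discriminant of the transcendental cohomology.** -/
theorem disc_T (hD : P.X.IsCyc 1 P.D) (hA : LefschetzA W P.X P.D) (hDX : HomEqNum W P.X)
    (hmid : transcendental W P.X ≤ W.gr P.X P.X.dim) (hd : P.X.dim = 2 * j) {t : ℕ}
    {z : Fin t → P.X.Cycles} (hz : IsMax ops P j z) {r : ℕ} {δ : ℚ} (hI : HasDisc W P j r δ)
    (s : SB W P.X) : r = t + s.NT ∧ ∃ x : W.K, x ≠ 0 ∧
      (δ : W.K) = ((∏ a, pairing ops P.X P.D j (z a) (z a) : ℚ) : W.K) * (gT j s).det * x ^ 2 := by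
  have hj : 2 * j ≤ P.X.dim := by omega
  obtain ⟨b, hb⟩ := hI
  set β : primSub W P j →ₗ[W.K] primSub W P j →ₗ[W.K] W.K :=
    LinearMap.mk₂ W.K (fun x y => lform W P j x.1 y.1)
      (fun x y z => by simp only [lform, Submodule.coe_add, add_mul, map_add, mul_add])
      (fun c x y => by
        simp only [lform, Submodule.coe_smul, smul_mul_assoc, map_smul, smul_eq_mul]
        ring)
      (fun x y z => by simp only [lform, Submodule.coe_add, map_add, mul_add])
      (fun c x y => by
        simp only [lform, Submodule.coe_smul, map_smul, mul_smul_comm, smul_eq_mul]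
        ring) with hβ
  have hβa : ∀ x y : primSub W P j, β x y = (-1) ^ j * bil W P.X x y := by
    intro x y
    change lform W P j x y = _
    unfold lform
    rw [hd, Nat.sub_self, pow_zero]
    rfl
  have hle : transcendental W P.X ≤ primSub W P j := fun x hx =>
    ((mem_trans_iff hD hA hDX hmid hd hz).1 hx).1
  set T : Submodule W.K (primSub W P j) :=
    (transcendental W P.X).comap (primSub W P j).subtype with hT
  set bT : Module.Basis (Fin s.NT) W.K T :=
    s.bT.map (Submodule.comapSubtypeEquivOfLe hle).symm with hbT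
  have hbTa : ∀ i, (((bT i : T) : primSub W P j) : W.H P.X) = s.bT i := by
    intro i
    rw [hbT, Module.Basis.map_apply]
    rfl
  set v : Fin t → primSub W P j := fun a => ⟨W.cl P.X (z a), prim_mem hDX hD hj (hz.1.1 a)⟩ with hv
  have hval : ∀ a c, β (v a) (v c) = (pairing ops P.X P.D j (z a) (z c) : W.K) := by
    intro a c
    rw [pairing_eq W hD hj (hz.1.1 a).1 (hz.1.1 c).1]
    rfl
  obtain ⟨h1, x, hx0, hx⟩ := orth_disc (β := β)
    (fun x y => form_symm hD (Submodule.mem_inf.1 x.2).1 (Submodule.mem_inf.1 y.2).1)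
    (v := v) (w := fun a => (pairing ops P.X P.D j (z a) (z a) : W.K))
    (fun a c hac => by rw [hval, hz.1.2 a c hac, Rat.cast_zero]) (fun a => hval a a)
    (fun a => by exact_mod_cast (hz.2.1 a).ne') (T := T)
    (fun x => by
      rw [hT, Submodule.mem_comap]
      change (x : W.H P.X) ∈ transcendental W P.X ↔ _
      rw [mem_trans_iff hD hA hDX hmid hd hz]
      constructor
      · rintro ⟨-, h2⟩ a
        rw [hβa]
        change _ * bil W P.X (W.cl P.X (z a)) x = 0
        rw [h2, mul_zero]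
      · intro h2
        refine ⟨x.2, fun a => ?_⟩
        have h3 := h2 a
        rw [hβa] at h3
        exact (mul_eq_zero.1 h3).resolve_left (pow_ne_zero _ (by norm_num))) b bT
  refine ⟨h1, x, hx0, ?_⟩
  have h2 : (gm β b).det = (δ : W.K) := by
    rw [← hb]
    rfl
  have h3 : (gm β fun i => ((bT i : T) : primSub W P j)) = gT j s := by
    ext i l
    change β _ _ = _
    rw [hβa, hbTa, hbTa]
    rfl
  rw [← h2, hx, h3]
  push_cast
  rfl

end Pool.Agent.W5h89.Odd
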