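import Pool.Agent.W5h89.Odd.Pair
import Pool.Agent.TH125.Gal.Std
import Pool.Agent.H281R3.HT.GDefs

/-!
# The classes from the transcendental cohomology and the action of the group
-/

open CategoryTheory AlgebraicGeometry Finset

set_option linter.unusedSectionVars false

universe u v w

namespace Pool.Agent.W5h89.Odd

open Pool.Agent.H914 Pool.Agent.H914.VarClass Pool.Agent.H914.VarClass.Obj
  Pool.Agent.H914.WeilCohomology Pool.Agent.H281R3.HT Pool.Agent.W552 Pool.Agent.H447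
  Pool.Agent.TH125.Gal

variable {k : Type u} [Field k] {𝒱 : VarClass k} {ops : CycleOps 𝒱}
  {W : WeilCohomology.{u, v} ops} {A B : 𝒱.Obj}

/-- The contraction as a linear map. -/
noncomputable def cnL (c : W.H (A.prod B)) : W.H A →ₗ[W.K] W.H B where
  toFun u := cn u c
  map_add' u u' := cn_add' u u' c
  map_smul' r u := cn_smul' r u c

theorem cnL_apply (c : W.H (A.prod B)) (u : W.H A) : cnL c u = cn u c := rfl

section

variable {Γ : Type w} [Group Γ] {χ : Γ →* W.Kˣ} {ρ : Γ →* (W.H A ≃ₐ[W.K] W.H A)}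
  {τ : Γ →* (W.H B ≃ₐ[W.K] W.H B)} {υ : Γ →* (W.H (A.prod B) ≃ₐ[W.K] W.H (A.prod B))}

/-- The contraction and the action. -/
theorem cn_act (hτ : IsGalois W χ B τ) (hυ : IsGalois W χ (A.prod B) υ)
    (h1 : Intertwines (W.map (fst A B)) ρ υ) (h2 : Intertwines (W.map (snd A B)) τ υ) (g : Γ)
    (a : W.H A) (c : W.H (A.prod B)) :
    cn (ρ g a) (υ g c) = (χ g : W.K) ^ A.dim • τ g (cn a c) := by
  apply W.tr_ext
  intro b
  have hb : b = τ g (τ g⁻¹ b) := (act_inv τ g b).symm
  rw [hb, tr_cn, ← h1, ← h2, ← map_mul, ← map_mul, hυ.tr_act, ← tr_cn, smul_mul_assoc, map_smul,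
    ← map_mul, hτ.tr_act, dim_prod, pow_add, smul_eq_mul, mul_assoc]

variable {m : ℕ} {c : W.H (A.prod B)}

/-- **Schur's lemma.** -/
theorem Ex.schur (hDA : HomEqNum W A) (hDB : HomEqNum W B)
    (hA : transcendental W A ≤ W.gr A A.dim) (hB : transcendental W B ≤ W.gr B B.dim) {j j' : ℕ}
    (hj : A.dim = 2 * j) (hj' : B.dim = 2 * j')
    (hρ : IsGalois W χ A ρ) (hτ : IsGalois W χ B τ) (hυ : IsGalois W χ (A.prod B) υ)
    (h1 : Intertwines (W.map (fst A B)) ρ υ) (h2 : Intertwines (W.map (snd A B)) τ υ)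
    (hiA : IrredAct ρ (transcendental W A)) (hiB : IrredAct τ (transcendental W B))
    (hsc : ∀ Δ : Subgroup Γ, Δ.FiniteIndex →
      ScalarCommutant (transcendental W A) fun (g : Δ) a => ρ g a)
    (s : SB W A) (h : Ex W A B c) (hc0 : c ≠ 0) (hm : c ∈ algClasses W (A.prod B) (j + j')) :
    ∃ mu : W.K, mu ≠ 0 ∧
      (∀ x ∈ transcendental W A, ∀ y ∈ transcendental W A,
        bil W B (cn x c) (cn y c) = mu * bil W A x y) ∧
      (∀ x ∈ transcendental W A, cn x c = 0 → x = 0) ∧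
      ∀ y ∈ transcendental W B, ∃ x ∈ transcendental W A, cn x c = y := by
  obtain ⟨Δ, hΔ, hfix⟩ := hυ.cl_fix _ c hm
  have hχ : ∀ g, (χ g : W.K) ≠ 0 := fun g => (χ g).ne_zero
  have key : ∀ g ∈ Δ, ∀ t, (χ g : W.K) ^ (j + j') • cn (ρ g t) c =
      (χ g : W.K) ^ A.dim • τ g (cn t c) := by
    intro g hg t
    rw [← cn_act hτ hυ h1 h2, hfix g hg, cn_smul]
  -- the kernel
  set TA := transcendental W A with hTA
  set TB := transcendental W B with hTB
  set U : Submodule W.K (W.H A) := TA ⊓ LinearMap.ker (cnL c) with hU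
  have hUmem : ∀ x, x ∈ U ↔ x ∈ TA ∧ cn x c = 0 := by
    intro x
    rw [hU, Submodule.mem_inf, LinearMap.mem_ker]
    rfl
  have hUst : ∀ g ∈ Δ, ∀ a ∈ U, ρ g a ∈ U := by
    intro g hg a ha
    rw [hUmem] at ha ⊢
    refine ⟨act_trans hρ g ha.1, ?_⟩
    have h3 := key g hg a
    rw [ha.2, map_zero, smul_zero] at h3
    exact (smul_eq_zero.1 h3).resolve_left (pow_ne_zero _ (hχ g))
  have hUT : U ≠ TA := by
    intro h3
    apply hc0
    rw [h.expand hDA hA hB hj hj' s]
    refine Finset.sum_eq_zero fun i _ => ?_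
    have h4 : (s.bT i : W.H A) ∈ U := by rw [h3]; exact (s.bT i).2
    rw [((hUmem _).1 h4).2, H281R3.HT.ext, map_zero, mul_zero]
  have hU0 : U = ⊥ := (hiA Δ hΔ U inf_le_left hUst).resolve_right hUT
  have hinj : ∀ x ∈ TA, cn x c = 0 → x = 0 := by
    intro x hx hx0
    have h4 : x ∈ U := (hUmem x).2 ⟨hx, hx0⟩
    rw [hU0, Submodule.mem_bot] at h4
    exact h4
  have hTA0 : TA ≠ ⊥ := fun h3 => hUT (by rw [hU0, h3])
  -- the image
  set V : Submodule W.K (W.H B) := TA.map (cnL c) with hV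
  have hVT : V ≤ TB := by
    rintro _ ⟨x, hx, rfl⟩
    exact h.trans hDA
  have hVst : ∀ g ∈ Δ, ∀ a ∈ V, τ g a ∈ V := by
    rintro g hg _ ⟨x, hx, rfl⟩
    have h3 := key g hg x
    have h4 : τ g (cn x c) = cn (((χ g : W.K) ^ A.dim)⁻¹ • (χ g : W.K) ^ (j + j') • ρ g x) c := by
      rw [cn_smul', cn_smul', h3, smul_smul, inv_mul_cancel₀ (pow_ne_zero _ (hχ g)), one_smul]
    rw [cnL_apply, h4]
    exact ⟨_, Submodule.smul_mem _ _ (Submodule.smul_mem _ _ (act_trans hρ g hx)), rfl⟩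
  have hV0 : V ≠ ⊥ := by
    intro h3
    obtain ⟨x, hx, hx0⟩ := (Submodule.ne_bot_iff _).1 hTA0
    apply hx0
    apply hinj x hx
    have h4 : cn x c ∈ V := ⟨x, hx, rfl⟩
    rw [h3, Submodule.mem_bot] at h4
    exact h4
  have hVB : V = TB := (hiB Δ hΔ V hVT hVst).resolve_left hV0
  have hsurj : ∀ y ∈ TB, ∃ x ∈ TA, cn x c = y := by
    intro y hy
    rw [← hVB] at hy
    obtain ⟨x, hx, rfl⟩ := hy
    exact ⟨x, hx, rfl⟩
  -- the operator
  set ψ : W.H A →ₗ[W.K] W.H A :=
    ∑ i, (((bil W B).flip (cn (s.bT i : W.H A) c)).comp (cnL c)).smulRight (s.uT i : W.H A) with hψ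
  have hψa : ∀ x, ψ x = ∑ i, bil W B (cn x c) (cn (s.bT i : W.H A) c) • (s.uT i : W.H A) := by
    intro x
    rw [hψ, LinearMap.sum_apply]
    rfl
  have hψT : ∀ x, ψ x ∈ TA := by
    intro x
    rw [hψa]
    exact Submodule.sum_mem _ fun i _ => Submodule.smul_mem _ _ (s.uT i).2
  have hψb : ∀ x, ∀ y ∈ TA, bil W A (ψ x) y = bil W B (cn x c) (cn y c) := by
    intro x y hy
    have h3 : ∀ l, bil W A (ψ x) (s.bT l) = bil W B (cn x c) (cn (s.bT l : W.H A) c) := by
      intro l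
      rw [hψa, map_sum, LinearMap.sum_apply, Finset.sum_eq_single l]
      · rw [map_smul, LinearMap.smul_apply, s.uT_bT, if_pos rfl, smul_eq_mul, mul_one]
      · intro i _ hi
        rw [map_smul, LinearMap.smul_apply, s.uT_bT, if_neg (Ne.symm hi), smul_zero]
      · intro h0
        exact absurd (Finset.mem_univ _) h0
    conv_lhs => rw [s.expand_T hy]
    conv_rhs => rw [s.expand_T hy]
    rw [map_sum, cn_sum', map_sum]
    refine Finset.sum_congr rfl fun l _ => ?_
    rw [map_smul, h3, cn_smul', map_smul]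
  have hcomm : ∀ g : Δ, ∀ t ∈ TA, ψ (ρ g t) = ρ g (ψ t) := by
    intro g t ht
    have hz : (⟨ψ (ρ g t) - ρ g (ψ t), Submodule.sub_mem _ (hψT _)
        (act_trans hρ g (hψT t))⟩ : transcendental W A) = 0 := by
      refine trans_nondeg hDA _ fun y => ?_
      rw [rform_apply]
      have hy : (y : W.H A) = ρ g (ρ (g : Γ)⁻¹ y) := (act_inv ρ g _).symm
      set y' := ρ (g : Γ)⁻¹ (y : W.H A) with hy'
      have hy'T : y' ∈ TA := act_trans hρ _ y.2
      rw [hy, map_sub, LinearMap.sub_apply, hψb _ _ (act_trans hρ g hy'T), bil_act hρ,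
        hψb _ _ hy'T, sub_eq_zero]
      have h3 : bil W B ((χ g : W.K) ^ (j + j') • cn (ρ g t) c)
          ((χ g : W.K) ^ (j + j') • cn (ρ g y') c) =
          bil W B ((χ g : W.K) ^ A.dim • τ g (cn t c)) ((χ g : W.K) ^ A.dim • τ g (cn y' c)) := by
        rw [key g g.2, key g g.2]
      simp only [map_smul, LinearMap.smul_apply, smul_eq_mul] at h3
      rw [bil_act hτ] at h3
      have hx := hχ (g : Γ)
      have h4 : (χ g : W.K) ^ (j + j') * (χ g : W.K) ^ (j + j') =
          (χ g : W.K) ^ A.dim * (χ g : W.K) ^ B.dim := by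
        rw [← pow_add, ← pow_add]
        congr 1
        omega
      have h5 : (χ g : W.K) ^ A.dim * (χ g : W.K) ^ B.dim ≠ 0 :=
        mul_ne_zero (pow_ne_zero _ hx) (pow_ne_zero _ hx)
      apply mul_left_cancel₀ h5
      calc _ = (χ g : W.K) ^ (j + j') * ((χ g : W.K) ^ (j + j') *
            bil W B (cn (ρ g t) c) (cn (ρ g y') c)) := by
            rw [← h4]
            ring
        _ = _ := by
            rw [h3]
            ring
    exact sub_eq_zero.1 (congrArg Subtype.val hz)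
  obtain ⟨mu, hmu⟩ := hsc Δ hΔ ψ (fun t _ => hψT t) hcomm
  have hform : ∀ x ∈ TA, ∀ y ∈ TA, bil W B (cn x c) (cn y c) = mu * bil W A x y := by
    intro x hx y hy
    rw [← hψb x y hy, hmu x hx, map_smul, LinearMap.smul_apply, smul_eq_mul]
  refine ⟨mu, ?_, hform, hinj, hsurj⟩
  rintro rfl
  obtain ⟨x, hx, hx0⟩ := (Submodule.ne_bot_iff _).1 hTA0
  apply hx0
  apply hinj x hx
  have h3 : (⟨cn x c, h.trans hDA⟩ : transcendental W B) = 0 := by
    refine trans_nondeg hDB _ fun y => ?_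
    obtain ⟨z, hz, hz'⟩ := hsurj y y.2
    rw [rform_apply, ← hz']
    change bil W B (cn x c) (cn z c) = 0
    rw [hform x hx z hz, zero_mul]
  exact congrArg Subtype.val h3

end

section

variable {c : W.H (A.prod B)}

/-- The self-intersection number. -/
theorem Ex.tr_sq (hDA : HomEqNum W A) 
    (hA : transcendental W A ≤ W.gr A A.dim) (hB : transcendental W B ≤ W.gr B B.dim) {j j' : ℕ}
    (hj : A.dim = 2 * j) (hj' : B.dim = 2 * j') (s : SB W A) (h : Ex W A B c) {mu : W.K}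
    (hmu : ∀ x ∈ transcendental W A, ∀ y ∈ transcendental W A,
        bil W B (cn x c) (cn y c) = mu * bil W A x y) :
    W.tr (A.prod B) (c * c) = mu * s.NT := by
  have hT := fun t => h.trans hDA (t := t)
  have hexp := h.expand hDA hA hB hj hj' s
  have e1 : ∀ i l, W.tr (A.prod B)
      (H281R3.HT.ext W (s.uT i : W.H A) (cn (s.bT i : W.H A) c) *
        H281R3.HT.ext W (s.uT l : W.H A) (cn (s.bT l : W.H A) c)) =
      mu * (bil W A (s.bT i) (s.bT l) * bil W A (s.uT i) (s.uT l)) := by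
    intro i l
    rw [H281R3.HT.ext, H281R3.HT.ext, mul_assoc, ← mul_assoc (W.map (snd A B) _),
      trans_comm hB hj' (snd A B) (hT _), mul_assoc, ← mul_assoc, ← map_mul, ← map_mul, W.tr_prod,
      ← bil_apply, ← bil_apply, hmu _ (s.bT i).2 _ (s.bT l).2]
    ring
  have e2 : ∀ i, ∑ l, bil W A (s.bT i : W.H A) (s.bT l : W.H A) *
      bil W A (s.uT i : W.H A) (s.uT l : W.H A) = 1 := by
    intro i
    have h3 := congrArg (bil W A (s.uT i : W.H A)) (sum_bT s i)
    rw [map_sum, s.uT_bT, if_pos rfl] at h3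
    rw [← h3]
    refine Finset.sum_congr rfl fun j _ => ?_
    rw [map_smul, smul_eq_mul]
  calc W.tr (A.prod B) (c * c) = W.tr (A.prod B)
        ((∑ i, H281R3.HT.ext W (s.uT i : W.H A) (cn (s.bT i : W.H A) c)) *
          ∑ l, H281R3.HT.ext W (s.uT l : W.H A) (cn (s.bT l : W.H A) c)) := by rw [← hexp]
    _ = ∑ i, ∑ l, mu * (bil W A (s.bT i) (s.bT l) * bil W A (s.uT i) (s.uT l)) := by
        rw [Finset.sum_mul, map_sum]
        refine Finset.sum_congr rfl fun i _ => ?_
        rw [Finset.mul_sum, map_sum]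
        exact Finset.sum_congr rfl fun l _ => e1 i l
    _ = _ := by
        simp only [← Finset.mul_sum]
        rw [Finset.sum_congr rfl fun i _ => e2 i, Finset.sum_const, Finset.card_univ,
          Fintype.card_fin, nsmul_eq_mul, mul_one]

/-- The value of the form is the self-intersection number, up to the sign. -/
theorem Ex.bf_eq {D : A.Cycles} {f : Module.End W.K (W.H A)} (F : Fp W A D f) {E : B.Cycles}
    {g : Module.End W.K (W.H B)} (G : Fp W B E g)
    (hA : transcendental W A ≤ W.gr A A.dim) (hB : transcendental W B ≤ W.gr B B.dim) {j j' : ℕ}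
    (hj : A.dim = 2 * j) (hj' : B.dim = 2 * j') (h : Ex W A B c) :
    bf W (A.prod B) (ops.pull (fst A B) D + ops.pull (snd A B) E) (extSum W f g) c c =
      (sg A.dim : W.K) * (sg B.dim : W.K) * W.tr (A.prod B) (c * c) := by
  have hDA := F.hodge.2
  obtain ⟨s⟩ := exists_SB hDA
  have hT := fun t => h.trans hDA (t := t)
  have hexp := h.expand hDA hA hB hj hj' s
  have e1 : ∀ i l, bf W (A.prod B) (ops.pull (fst A B) D + ops.pull (snd A B) E) (extSum W f g)
      (H281R3.HT.ext W (s.uT i : W.H A) (cn (s.bT i : W.H A) c))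
        (H281R3.HT.ext W (s.uT l : W.H A) (cn (s.bT l : W.H A) c)) =
      (sg A.dim : W.K) * (sg B.dim : W.K) * W.tr (A.prod B)
      (H281R3.HT.ext W (s.uT i : W.H A) (cn (s.bT i : W.H A) c) *
        H281R3.HT.ext W (s.uT l : W.H A) (cn (s.bT l : W.H A) c)) := by
    intro i l
    rw [F.fr.bf_ext G.fr, bf_trans hA F _ (s.uT l).2, bf_trans hB G _ (hT _)]
    rw [H281R3.HT.ext, H281R3.HT.ext, mul_assoc (W.map (fst A B) _),
      ← mul_assoc (W.map (snd A B) _),
      trans_comm hB hj' (snd A B) (hT _), mul_assoc (W.map (fst A B) _), ← mul_assoc (W.map (fst A B) _)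
      (W.map (fst A B) _), ← map_mul, ← map_mul, W.tr_prod, bil_apply, bil_apply]
    ring
  conv_lhs => rw [hexp]
  conv_rhs => rw [hexp]
  rw [map_sum (bf W (A.prod B) _ _), LinearMap.sum_apply, Finset.sum_mul, map_sum, Finset.mul_sum]
  refine Finset.sum_congr rfl fun i _ => ?_
  rw [map_sum, Finset.mul_sum, map_sum, Finset.mul_sum]
  exact Finset.sum_congr rfl fun l _ => e1 i l

/-- The classes are homogeneous. -/
theorem Ex.alg_mem (hDA : HomEqNum W A) 
    (hA : transcendental W A ≤ W.gr A A.dim) (hB : transcendental W B ≤ W.gr B B.dim) {j j' : ℕ}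
    (hj : A.dim = 2 * j) (hj' : B.dim = 2 * j') (h : Ex W A B c) :
    c ∈ algClasses W (A.prod B) (j + j') := by
  obtain ⟨s⟩ := exists_SB hDA
  apply h.1.alg
  rw [h.expand hDA hA hB hj hj' s]
  refine Submodule.sum_mem _ fun i _ => ?_
  rw [show 2 * (j + j') = A.dim + B.dim by omega]
  exact W.mul_mem (W.map_mem _ (hA (s.uT i).2)) (W.map_mem _ (hB (h.trans hDA)))

end

end Pool.Agent.W5h89.Odd
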